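import Pool.Agent.H246.RS.Commute

/-!
# Converse of the `Ω`-stability theorem: commuting flows and rotation sets, asymptotic cycles

`V n = ℝⁿ`, `DiffM n N r = Diff^r(N)`, `strongTop n N r` is its `C^r` topology
(`Pool/Graph/R_seed8/H718R2/G0.lean`); `Omega`, `OmegaStable`: nonwandering set, `Ω`-stability
(`Pool/Graph/R_seed8/TH80/OMS/Defs.lean`).

* `IsDisp F U a` (`Pool/Agent/H246/RS/Rot.lean`): `U : N → 𝕋^e` and `a : N → ℝ^e` are continuous and
  `U ∘ F = U + a mod ℤ^e`;
* `Rot F a`: the rotation set, i.e. the set of the integrals `∫ a dν` for the `F`-invariant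
  probability measures `ν`;
* `IsDrift ψ U b` (`Pool/Agent/H246/RS/Fl.lean`): `U ∘ ψ_t = U + b_t mod ℤ^e`, `b` continuous, `b_0 = 0`
  (so that `∫ b_1 dν` is the value on the classes of `U` of Schwartzman's asymptotic cycle of an
  invariant measure `ν` of the flow);
* `CommFlow n N r F ψ` (`Pool/Agent/H246/RS/Commute.lean`): `ψ` is a continuous flow on `N` which
  commutes with `F`, and `ψ_t ∘ F → F` in `Diff^r(N)` for `t → 0`. (By `commFlow_of_smooth` all smooth
  flows which commute with `F` are of this kind; flows of `C^r` vector fields also are.)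

Idea.  All maps near an `Ω`-stable map together have only countably many rotation sets, as there are
only countably many homotopy classes of maps `Ω(F) → 𝕋^e`. The invariant measures of `ψ_t ∘ F` may be
averaged along the flow `ψ`, and so the support functions of its rotation set depend continuously on
`t`; as they have only countably many values, they are constant. If `F = ψ_1`, the rotation set of
`ψ_t ∘ F = ψ_(1+t)` is `1 + t` times that of `F`, and so it is zero.
-/

set_option autoImplicit false

open scoped Manifold ContDiff Topology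
open Filter Set Topology MeasureTheory

universe u

namespace Pool.Agent.Results.MP_814647_an.AsymptoticCycles

open Pool.Agent.H718R2.G Pool.Agent.TH80.OMS Pool.Agent.H246.RS

/-- Let `N` be a closed manifold, `1 ≤ r ≤ ∞`, and let `F ∈ Diff^r(N)` be `Ω`-stable. There is a
neighbourhood `𝒰` of `F` such that for all `G ∈ 𝒰` and all flows `ψ` which commute with `G`:
the rotation sets of `ψ_t ∘ G` agree with those of `G` for small `t` (with respect to all maps
`U : N → 𝕋^e` with a displacement `a` under `G`), so that `∫ a dν + t ∫ b_1 dν` lies in the rotation set of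
`G` for all small `t` and all measures `ν` which are invariant under `G` and `ψ`; and if `G = ψ_1` is the
time-one map of the flow, all asymptotic cycles vanish: `∫ b_1 dν = 0` for all invariant measures `ν`
of `G` and all maps `U : N → 𝕋^e`. In particular, no limit in `Diff^r(N)` of time-one maps of flows with
nonvanishing asymptotic cycles is `Ω`-stable. -/
theorem result (n : ℕ) (N : Type u) [TopologicalSpace N] [T2Space N] [CompactSpace N]
    [ChartedSpace (V n) N] [IsManifold (𝓡 n) ∞ N] [MeasurableSpace N] [BorelSpace N] (r : ℕ∞)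
    (F : DiffM n N r) (hF : OmegaStable n N r F) :
    ∃ 𝒰 : Set (DiffM n N r), IsOpen[strongTop n N r] 𝒰 ∧ F ∈ 𝒰 ∧
      ∀ G ∈ 𝒰, ∀ ψ : ℝ → N → N, CommFlow n N r G ψ →
        (∃ ε : ℝ, 0 < ε ∧ ∀ (e : ℕ) (U : N → Fin e → UnitAddCircle) (a : N → Fin e → ℝ)
          (b : ℝ → N → Fin e → ℝ), IsDisp G U a → IsDrift ψ U b → ∀ t : ℝ, |t| < ε →
            Rot (fun x => ψ t (G x)) (fun x => a x + b t (G x)) = Rot G a ∧
            ∀ ν : Measure N, IsProbabilityMeasure ν → MeasurePreserving G ν ν →
              (∀ s, MeasurePreserving (ψ s) ν ν) → ∫ x, a x ∂ν + t • ∫ x, b 1 x ∂ν ∈ Rot G a) ∧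
        ((∀ x, G x = ψ 1 x) → ∀ (e : ℕ) (U : N → Fin e → UnitAddCircle) (b : ℝ → N → Fin e → ℝ),
          Continuous U → IsDrift ψ U b → ∀ ν : Measure N, IsProbabilityMeasure ν →
            MeasurePreserving G ν ν → ∫ x, b 1 x ∂ν = 0) := by
  obtain ⟨𝒰, h1, h2, h3⟩ := stable_near r F hF
  refine ⟨𝒰, h1, h2, fun G hG ψ hψ => ⟨commuting r G (h3 G hG) hψ, ?_⟩⟩
  intro hG1 e U b hU hb ν hν1 hν
  exact time_one r G (h3 G hG) hψ hG1 e U b hU hb ν hν

end Pool.Agent.Results.MP_814647_an.AsymptoticCycles
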