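import Pool.Agent.H246.RS.Main

/-!
# Converse of the `Ω`-stability theorem: rotation sets of conservative diffeomorphisms

`V n = ℝⁿ`, `DiffM n N r = Diff^r(N)`, `strongTop n N r` is its `C^r` topology
(`Pool/Graph/R_seed8/H718R2/G0.lean`); `Omega`, `OmegaStable`: nonwandering set, `Ω`-stability
(`Pool/Graph/R_seed8/TH80/OMS/Defs.lean`); `IsFlow n N ψ`: smooth flow
(`Pool/Graph/R_seed8/TH290/CL/Flow.lean`).

* `IsDisp F U a` (`Pool/Agent/H246/RS/Rot.lean`): `U : N → 𝕋^e` and `a : N → ℝ^e` are continuous and
  `U ∘ F = U + a mod ℤ^e`;
* `Rot F a`: the rotation set, i.e. the set of the integrals `∫ a dν` for the `F`-invariant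
  probability measures `ν` (a compact convex set);
* `IsDrift ψ U b` (`Pool/Agent/H246/RS/Fl.lean`): `U ∘ ψ_t = U + b_t mod ℤ^e`, `b` continuous, `b_0 = 0`;
* `Spans F U` (`Pool/Agent/H246/RS/Main.lean`): every circle-valued map `u` with a displacement under `F`
  (`u ∘ F` homotopic to `u`) is homotopic to an integer combination of the components of `U` (i.e.
  `U` generates the group of the classes of `H¹(N; ℤ)` which are fixed by `F`).

Idea.  A conjugacy `h` of `F` to a nearby `G` turns `U` into the map `U ∘ h : N → 𝕋^e`.  There are
only countably many homotopy classes of such maps, so the maps near `F` have only countably many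
rotation sets; if these had no interior they would be null sets (they are convex), but the mean
rotation vectors of the invariant measure, which move linearly if `F` is composed with flows which
preserve it, fill an open set.  So the rotation set is a convex body.  The rotation sets of the maps
near `F` are integer affine images of it, and by semicontinuity they cannot be larger, so that they
contain the mean rotation vectors of all nearby maps only if these are interior points.

No closing lemma is used. For instance (the topological facts on the torus are not formalised here) a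
diffeomorphism of the torus `𝕋^d` which is homotopic to the identity, preserves the volume, and
whose rotation set has no interior points (a pseudo-rotation, for example), is not `Ω`-stable.
-/

set_option autoImplicit false

open scoped Manifold ContDiff Topology
open Filter Set Topology MeasureTheory

universe u

namespace Pool.Agent.Results.MP_814647_an.ConservativeRotation

open Pool.Agent.H718R2.G Pool.Agent.TH290.CL Pool.Agent.TH80.OMS Pool.Agent.H246.RS

/-- `F` preserves `μ`, the map `U : N → 𝕋^e` has the displacement `a` under `F`, and there are `e` smooth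
flows which preserve `μ`, such that `U` has drifts along the flows, whose mean drift vectors (with
respect to `μ`) are linearly independent. (It is well known, and not used, that such flows exist if
`μ` is a smooth volume of the closed manifold `N` and the components of `U` are linearly independent
in `H¹(N; ℝ)`.) -/
def Drifting (n : ℕ) (N : Type u) [TopologicalSpace N] [ChartedSpace (V n) N] [MeasurableSpace N]
    (F : N → N) (μ : Measure N) {e : ℕ} (U : N → Fin e → UnitAddCircle) (a : N → Fin e → ℝ) : Prop :=
  MeasurePreserving F μ μ ∧ IsDisp F U a ∧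
    ∃ (ψ : Fin e → ℝ → N → N) (b : Fin e → ℝ → N → Fin e → ℝ), (∀ i, IsFlow n N (ψ i)) ∧
      (∀ i t, MeasurePreserving (ψ i t) μ μ) ∧ (∀ i, IsDrift (ψ i) U (b i)) ∧
      LinearIndependent ℝ fun i => ∫ x, b i 1 x ∂μ

/-- The rotation set is locally constant at `F`: for all `G` near `F` with `Ω(G) = N` the map `U` has a
displacement `a'` under `G` with `|a' - a| < 1 / 4` (it is unique), and for this displacement the
rotation set of `G` is contained in that of `F`; they are equal if `U` spans the classes which are
invariant under `G`. -/
def LocConst (n : ℕ) (N : Type u) [TopologicalSpace N] [ChartedSpace (V n) N] [MeasurableSpace N]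
    (r : ℕ∞) (F : DiffM n N r) {e : ℕ} (U : N → Fin e → UnitAddCircle) (a : N → Fin e → ℝ) : Prop :=
  ∃ 𝒰 : Set (DiffM n N r), IsOpen[strongTop n N r] 𝒰 ∧ F ∈ 𝒰 ∧ ∀ G ∈ 𝒰, Omega G = univ →
    (∃ a' : N → Fin e → ℝ, IsDisp G U a' ∧ ∀ x, ‖a' x - a x‖ < 1 / 4) ∧
    ∀ a' : N → Fin e → ℝ, IsDisp G U a' → (∀ x, ‖a' x - a x‖ < 1 / 4) →
      Rot G a' ⊆ Rot F a ∧ (Spans G U → Rot G a' = Rot F a)

/-- Let `N` be a closed connected manifold, `1 ≤ r ≤ ∞`, and let `F ∈ Diff^r(N)` be `Ω`-stable. Suppose
that `F` preserves a probability measure `μ` which is positive on nonempty open sets, that `U` is as in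
`Drifting`, and that `U` spans the invariant classes. Then the mean rotation vector `∫ a dμ` is an
interior point of the rotation set of `F`, and the rotation set is locally constant at `F`. -/
theorem result (n : ℕ) (N : Type u) [TopologicalSpace N] [T2Space N] [CompactSpace N]
    [PreconnectedSpace N] [ChartedSpace (V n) N] [IsManifold (𝓡 n) ∞ N] [MeasurableSpace N]
    [BorelSpace N] (r : ℕ∞) (hr : 1 ≤ r) (F : DiffM n N r) (hF : OmegaStable n N r F)
    (μ : Measure N) (hμ1 : IsProbabilityMeasure μ) (hμ : ∀ W : Set N, IsOpen W → W.Nonempty → μ W ≠ 0)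
    (e : ℕ) (U : N → Fin e → UnitAddCircle) (a : N → Fin e → ℝ) (h : Drifting n N F μ U a)
    (hs : Spans F U) :
    ∫ x, a x ∂μ ∈ interior (Rot F a) ∧ LocConst n N r F U a := by
  have hpos : μ.IsOpenPosMeasure := ⟨hμ⟩
  obtain ⟨hFμ, hU, ψ, b, hψ, hμψ, hb, hli⟩ := h
  have h1 : ∫ x, a x ∂μ ∈ interior (Rot F a) :=
    conservative r hr F hF μ hFμ hU hs hψ hμψ hb hli
  have hne : Nonempty N := by
    by_contra hemp
    rw [not_nonempty_iff] at hemp
    have := measure_univ (μ := μ)
    rw [Set.univ_eq_empty_iff.2 hemp, measure_empty] at this
    exact zero_ne_one this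
  have : SecondCountableTopology N := ChartedSpace.secondCountable_of_sigmaCompact (V n) N
  exact ⟨h1, rigid r F hF hne (omega_univ μ hFμ) hU hs ⟨_, h1⟩⟩

end Pool.Agent.Results.MP_814647_an.ConservativeRotation
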