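import Pool.Agent.H245.SK.S10
import Pool.Agent.H245.SH.X7

/-!
# The converse of the `Ω`-stability theorem for products

`V n = ℝⁿ`, `DiffM n N r` is `Diff^r(N)`, `strongTop n N r` is its strong (Whitney) `C^r` topology (the
usual one, `N` being compact) (library, `H718R2/G0.lean`). `OmegaStable n N r F`: all diffeomorphisms
of a neighbourhood of `F` in `Diff^r(N)` are conjugate to `F` on the nonwandering sets
(`TH80/OMS/Defs.lean`). `Per F`: the periodic points; `IsHyperbolicPer n F p`: `p` is a periodic point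
of `F` and `DF^m(p)` has no eigenvalue of modulus one for every period `m` (`Y504/CO/Stm.lean`).
`Q263.HS.AxiomA (V n) F`: the nonwandering set `Ω(F)` is hyperbolic and is contained in the closure of
the set of the periodic points (`Q263/HS/Def.lean`). `NoCycle F`, `Omega F`, `ChainRec F`: the no-cycle
property, the nonwandering set, the chain recurrent set (`H728R2/OS/Defs.lean`).

Proof. Perturbations of the first factor may depend on the point of the second factor; so `h` can be
used to decide at which times one of finitely many small pushes is applied. So along closed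
pseudo-orbits of `f` with a bounded number of kinds of jumps, repeated any number of times in any
order, products of the derivatives with perturbations at the jumps have no eigenvalue of modulus one
(`SK/S1`). A jump of `f` costs a bounded time; as the scaling of a single push by a factor is
admissible, the products have a gap at the unit circle which is exponential in the number of the
jumps (`SK/S1`, `SK/S2`). Comparing products over loops which visit a point near which the orbit stays
for a long time with products which leave it out, one gets bounds for the norms of the projections to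
the stable spaces of loops (`SK/S4`, `SK/S5`), and uniform hyperbolicity of closed pseudo-orbits
(`SK/S6`, `SK/S7`, `SK/S3`). For orbits of periodic points, and for pseudo-orbits with one jump, this
gives Axiom A (`SK/S8`). The orbits which connect the pieces in a cycle are limits of closed
pseudo-orbits with a bounded number of kinds of jumps; so the cycle together with `Ω(f)` is contained
in a hyperbolic set, and its points are limits of periodic points, by the shadowing lemma (`SH/Y8` to
`SH/Y11`, `SK/S8`).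
-/

set_option autoImplicit false

open scoped Manifold ContDiff Topology
open Filter Set Metric

universe u v w

namespace Pool.Agent.Results.MP_814647_an.ConverseForProducts

open Pool.Agent.H718R2.G Pool.Agent.TH80.OMS Pool.Agent.Y504.CO Pool.Agent.H245.SH
  Pool.Agent.H245.SK

/-- `h` has on `K` a periodic sparse shift: there are disjoint compact sets `W₀`, `W₁` and a number `g`
such that for every `l ≥ 1` and every `l`-periodic set `S` of times with gaps larger than `g` there is
a point `y` with `h^l(y) = y` whose orbit lies in `K`, is in `W₁` at the times `i ∈ S` and in `W₀` at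
the times `i ∉ S`. (For `g = 0` this is a full shift on two symbols.) -/
def SparseShiftOn {Y : Type w} [TopologicalSpace Y] (h : Y → Y) (K : Set Y) : Prop :=
  ∃ (g : ℕ) (W₀ W₁ : Set Y), IsCompact W₀ ∧ IsCompact W₁ ∧ Disjoint W₀ W₁ ∧
    ∀ (l : ℕ) (S : Set ℕ), 1 ≤ l → (∀ i, i + l ∈ S ↔ i ∈ S) →
      (∀ i ∈ S, ∀ j ∈ S, i < j → i + g < j) →
      ∃ y, h^[l] y = y ∧ ∀ i, i < l → h^[i] y ∈ K ∧ (i ∈ S → h^[i] y ∈ W₁) ∧
        (i ∉ S → h^[i] y ∈ W₀)

/-- `F` is a star diffeomorphism in `Diff^r(N)`: all periodic points of all diffeomorphisms of some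
neighbourhood of `F` in `Diff^r(N)` are hyperbolic. -/
def StarDiffeo (n : ℕ) (N : Type u) [TopologicalSpace N] [ChartedSpace (V n) N] (r : ℕ∞)
    (F : DiffM n N r) : Prop :=
  ∃ U : Set (DiffM n N r), IsOpen[strongTop n N r] U ∧ F ∈ U ∧
    ∀ G ∈ U, ∀ p ∈ Per G, IsHyperbolicPer n G p

/-- `F` as a homeomorphism -/
noncomputable def hom {n : ℕ} {N : Type u} [TopologicalSpace N] [ChartedSpace (V n) N] {r : ℕ∞}
    (F : DiffM n N r) : N ≃ₜ N := F.toHomeomorph

/-- `Θ` is a `C^∞` diffeomorphism of `M × Y` onto an open subset of `N`. -/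
def OpenProduct (m k n : ℕ) {M : Type v} [TopologicalSpace M] [ChartedSpace (V m) M]
    {Y : Type w} [TopologicalSpace Y] [ChartedSpace (V k) Y]
    {N : Type u} [TopologicalSpace N] [ChartedSpace (V n) N] (Θ : M × Y → N) : Prop :=
  IsLocalDiffeomorph ((𝓡 m).prod (𝓡 k)) (𝓡 n) ∞ Θ ∧ Function.Injective Θ

/-- `F(Θ(x, y)) = Θ(f(x), h(y))` for all `x` and all `y ∈ K`. -/
def ProductOver {m n : ℕ} {M : Type v} [TopologicalSpace M] [ChartedSpace (V m) M]
    {Y : Type w} {N : Type u} [TopologicalSpace N] [ChartedSpace (V n) N] {r : ℕ∞}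
    (f : DiffM m M r) (h : Y → Y) (K : Set Y) (Θ : M × Y → N) (F : DiffM n N r) : Prop :=
  ∀ x, ∀ y ∈ K, hom F (Θ (x, y)) = Θ (hom f x, h y)

/-- The class `U₃`: `F` satisfies Axiom A and has no cycles. -/
def U3 {n : ℕ} {N : Type u} [MetricSpace N] [ChartedSpace (V n) N]
    [IsManifold (𝓡 n) ∞ N] {r : ℕ∞} (F : DiffM n N r) : Prop :=
  Q263.HS.AxiomA (V n) (hom F) ∧ Pool.Agent.H728R2.OS.NoCycle (hom F)

/-- Hyperbolic automorphisms of the torus `W / Λ` have sparse shifts. (Examples of the maps `h` of the
theorem `result`; it is not used in the proof.) -/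
theorem sparseShiftOn_toral (W : Type) [NormedAddCommGroup W] [NormedSpace ℝ W]
    [FiniteDimensional ℝ W] [Nontrivial W] (Λ : AddSubgroup W) [DiscreteTopology Λ]
    [IsClosed (Λ : Set W)] (hC : ∃ C : ℝ, ∀ z : W, ∃ u ∈ Λ, ‖z - u‖ ≤ C) (L : W ≃L[ℝ] W)
    (hL : Pool.Agent.H922R3.CL.IsHypLin L) (hΛ : ∀ u, u ∈ Λ ↔ L u ∈ Λ)
    (h : (W ⧸ Λ) ≃ₜ (W ⧸ Λ)) (hh : ∀ z : W, h (QuotientAddGroup.mk z) = QuotientAddGroup.mk (L z)) :
    SparseShiftOn h univ :=
  sp1_toral W Λ hC L hL hΛ h hh

/-- Maps with a periodic full shift on two symbols have sparse shifts. (Examples of the maps `h` of the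
theorem `result`; it is not used in the proof.) -/
theorem sparseShiftOn_of_fullShift {Y : Type w} [TopologicalSpace Y] {h : Y → Y} {K : Set Y}
    (hr : ∃ W : Fin 2 → Set Y, (∀ i, IsCompact (W i)) ∧ (∀ i j, i ≠ j → Disjoint (W i) (W j)) ∧
      ∀ (l : ℕ) (c : ℕ → Fin 2), 1 ≤ l →
        ∃ y, h^[l] y = y ∧ ∀ i, i < l → h^[i] y ∈ K ∧ h^[i] y ∈ W (c i)) : SparseShiftOn h K :=
  sp1_of_full hr

/-- **The converse of the `Ω`-stability theorem for products.** Let `2 ≤ r ≤ ∞`, let `f` be an
arbitrary `C^r` diffeomorphism of a closed manifold `M`, and let `h` be a continuous map of a manifold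
`Y` with a periodic sparse shift on a set `K` (for example a hyperbolic automorphism of a torus, or a
map with a full shift on two symbols on an invariant set, and `K = Y`). Let `N` be a closed manifold,
`F ∈ Diff^r(N)`, and let `Θ` be a smooth diffeomorphism of `M × Y` onto an open subset of `N` with
`F(Θ(x, y)) = Θ(f(x), h(y))` for `x ∈ M` and `y ∈ K`. Assume that `F` is `Ω`-stable, or only that `F`
is a star diffeomorphism in `Diff^r(N)`. Then `f` satisfies Axiom A and has no cycles.

Let moreover `F` be the product `f × H` with `H ∈ Diff^r(Y)`, that is `Θ` is onto, `K = Y` and `H = h`.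
If `H` satisfies Axiom A and `CR(H) = Ω(H)`, then `F` satisfies Axiom A and has no cycles. If `f` has
a sparse shift, too (on some subset of `M`), then `H` and `F` satisfy Axiom A and have no cycles. -/
theorem result {m k n : ℕ} {M : Type v} [MetricSpace M] [CompactSpace M] [ChartedSpace (V m) M]
    [IsManifold (𝓡 m) ∞ M] {Y : Type w} [MetricSpace Y] [SigmaCompactSpace Y]
    [ChartedSpace (V k) Y] [IsManifold (𝓡 k) ∞ Y] {N : Type u} [MetricSpace N] [CompactSpace N]
    [ChartedSpace (V n) N] [IsManifold (𝓡 n) ∞ N] (r : ℕ∞) (hr : 2 ≤ r) (f : DiffM m M r)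
    (h : Y → Y) (hc : Continuous h) (K : Set Y) (hh : SparseShiftOn h K) (Θ : M × Y → N)
    (hΘ : OpenProduct m k n Θ) (F : DiffM n N r) (hF : ProductOver f h K Θ F)
    (hst : OmegaStable n N r F ∨ StarDiffeo n N r F) :
    U3 f ∧ (Function.Surjective Θ → K = univ → ∀ H : DiffM k Y r, (∀ y, hom H y = h y) →
      (Q263.HS.AxiomA (V k) (hom H) →
        Pool.Agent.H728R2.OS.ChainRec (hom H) = Pool.Agent.H728R2.OS.Omega (hom H) → U3 F) ∧
      ((∃ K' : Set M, SparseShiftOn (hom f) K') → U3 H ∧ U3 F)) := by
  have hr1 : (1 : ℕ∞) ≤ r := le_trans (by norm_num) hr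
  have hcs : CStar n N r F := by
    rcases hst with hst | ⟨U, hU, hFU, hper⟩
    · exact cstar_of_stable hr1 hst
    · exact ⟨U, hU, hFU, fun G hG p hp => Eig2.hypAt_of (hper G hG p hp)⟩
  obtain ⟨h1, h2, h3⟩ := one_factor hr f hc hh hΘ.1 hΘ.2 F hF hcs
  refine ⟨⟨h1, h2⟩, fun hsurj hK H hH => ?_⟩
  have hF' : ∀ x y, F (Θ (x, y)) = Θ (f x, H y) := by
    intro x y
    have h4 := hF x y (by rw [hK]; exact mem_univ y)
    rw [← hH] at h4
    exact h4
  refine ⟨fun hA hCR => ?_, ?_⟩
  · refine product_u3 hr1 f H hΘ.1 hΘ.2 hsurj F hF' h1 hA h3 (cycPer_of_chain ?_)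
    have h5 : Pool.Agent.H728R2.OS.ChainRec H.toHomeomorph =
      Pool.Agent.H728R2.OS.Omega H.toHomeomorph := hCR
    rw [h5]
    exact hA.2
  · rintro ⟨K', hh'⟩
    obtain ⟨h5, h6, h7⟩ := two_factors (K := K') hr f H hh' hΘ.1 hΘ.2 hsurj F hF' hcs
    exact ⟨⟨h5, h6⟩, product_u3 hr1 f H hΘ.1 hΘ.2 hsurj F hF' h1 h5 h3 h7⟩

end Pool.Agent.Results.MP_814647_an.ConverseForProducts
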